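import Pool.Agent.L5helper96.NC.Final2
import Pool.Agent.L5helper67.NC.Assembly
import Pool.Agent.L5helper11.DP.Crit

/-!
The count of critical points for the permanent of any size for which the polynomials `F2t` are
permanents up to constants.
-/

namespace L5helper59.NC

open Finset MvPolynomial L5helper59.DC L5lead.NC L5helper96.NC

/-- the conclusion of the count of critical points, for permanents of size `size L (q + 1)` -/
def MainStmt (size : ℕ → ℕ → ℕ) : Prop :=
  ∀ (L q m M : ℕ), 1 ≤ q → 2 ^ L = 2 * q → m = size L (q + 1) →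
    BorderRep m M → ∀ (a b : ℕ), 1 ≤ a → 1 ≤ b →
    (q.factorial ^ 2) ^ (2 * q) * (a ^ (2 * q * (2 * q) + 1) * b ^ (2 * M)) ≤
      (a + b) ^ (2 * M + 1) * (2 * b) ^ (2 * q * (2 * q))

/-- `F2t` is a permanent of the given size up to a constant -/
def PermSizeStmt (size : ℕ → ℕ → ℕ) : Prop :=
  ∀ (r L m : ℕ), 1 ≤ r → ∀ t : ℝ, 0 < t → m = size L r →
  ∃ (M : Matrix (Fin m) (Fin m) (MvPolynomial (Option (Fin (2 ^ L) × Fin (2 ^ L))) ℂ))
    (K : ℂ), K ≠ 0 ∧ (∀ x y, (M x y).totalDegree ≤ 1) ∧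
    M.permanent = C K * F2t (2 ^ L) r (t : ℂ)

/-- E from the parts, any size -/
theorem main_size (hC1 : ∀ N r : ℕ, F2t N r 0 = F20 N r)
    (hC2 : ∀ (N r : ℕ) (m : Option (Fin N × Fin N) →₀ ℕ),
      Filter.Tendsto (fun k : ℕ => coeff m (F2t N r (1 / ((k : ℂ) + 1)))) Filter.atTop
        (nhds (coeff m (F2t N r 0))))
    (hdeg : ∀ (N r : ℕ) (t : ℂ), (F2t N r t).totalDegree ≤ r + 1)
    {size : ℕ → ℕ → ℕ} (hC3 : PermSizeStmt size) : MainStmt size := by
  intro L q m M hq hN hm H a b ha hb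
  have : NeZero q := ⟨by omega⟩
  have h := L5helper67.NC.assembly
    (fun q _ => L5helper11.DP.esymm_points q (Nat.one_le_iff_ne_zero.2 (NeZero.ne q)))
    (L := Fin (2 ^ L)) (V := Fin (2 ^ L)) q m M (by rw [Fintype.card_fin, hN])
    (fun k => F2t (2 ^ L) (q + 1) (1 / ((k : ℂ) + 1))) (q + 1 + 1) (fun k => hdeg _ _ _)
    (by
      intro d
      have h1 := hC2 (2 ^ L) (q + 1) d
      rw [hC1 (2 ^ L) (q + 1)] at h1
      exact h1)
    (by
      intro k
      obtain ⟨A, K, hK, hA, hp⟩ := hC3 (q + 1) L m (by omega) (1 / ((k : ℝ) + 1))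
        (by positivity) hm
      refine ⟨A, K, hK, hA, ?_⟩
      rw [hp]
      push_cast
      rfl)
    H a b ha hb
  rw [Fintype.card_fin, hN] at h
  exact h

end L5helper59.NC
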