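import Pool.Agent.L5helper67.DC.Limits
import Pool.Agent.L5helper57.DC.Transfer
import Pool.Agent.L5helper96.Cub.WeaklySkew

/-!
From a lower bound for `BorderRep` to the final forms, for all sizes.
-/

namespace L5helper59.NC

open Finset MvPolynomial Filter Topology L5helper59.DC

/-- The border bound, all sizes. -/
theorem border_bound_of {lb : ℕ → ℝ} (hB : ∀ m M : ℕ, 1 ≤ m → BorderRep m M → lb m ≤ (M : ℝ) + 1)
    (m n : ℕ) (hm : 1 ≤ m)
    (A : ℕ → Matrix (Fin n) (Fin n) (MvPolynomial (Fin m × Fin m) ℂ))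
    (hA : ∀ k i j, (A k i j).totalDegree ≤ 1)
    (hlim : ∀ d, Tendsto (fun k => coeff d (A k).det) atTop
      (𝓝 (coeff d (Matrix.permanent (Matrix.of fun i j : Fin m =>
        (X (i, j) : MvPolynomial (Fin m × Fin m) ℂ)))))) :
    lb m ≤ n := by
  cases n with
  | zero =>
    exfalso
    have h0 := hlim 0
    have h1 : (fun k => coeff 0 (A k).det) = fun _ => (1 : ℂ) := by
      funext k
      rw [Matrix.det_isEmpty]
      simp
    have h2 : coeff 0 (Matrix.permanent (Matrix.of fun i j : Fin m =>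
        (X (i, j) : MvPolynomial (Fin m × Fin m) ℂ))) = 0 := by
      rw [← constantCoeff_eq]
      unfold Matrix.permanent
      rw [map_sum]
      refine Finset.sum_eq_zero fun σ _ => ?_
      rw [map_prod]
      exact Finset.prod_eq_zero (Finset.mem_univ ⟨0, hm⟩) (by simp)
    rw [h1, h2] at h0
    exact one_ne_zero (tendsto_nhds_unique tendsto_const_nhds h0)
  | succ M =>
    push_cast
    exact hB m M hm ⟨A, hA, hlim⟩

/-- The exact bound for affine forms over `ℂ`. -/
theorem affine_bound_of {lb : ℕ → ℝ} (hB : ∀ m M : ℕ, 1 ≤ m → BorderRep m M → lb m ≤ (M : ℝ) + 1)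
    (m n : ℕ) (hm : 1 ≤ m)
    (A : Matrix (Fin n) (Fin n) (MvPolynomial (Fin m × Fin m) ℂ))
    (hA : ∀ i j, (A i j).totalDegree ≤ 1)
    (hdet : A.det = Matrix.permanent (Matrix.of fun i j => X (i, j))) :
    lb m ≤ n :=
  border_bound_of hB m n hm (fun _ => A) (fun _ => hA) fun d => by
    rw [hdet]
    exact tendsto_const_nhds

/-- The exact bound for affine forms over a field of characteristic zero. -/
theorem field_bound_of {lb : ℕ → ℝ} (hB : ∀ m M : ℕ, 1 ≤ m → BorderRep m M → lb m ≤ (M : ℝ) + 1)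
    (m n : ℕ) (hm : 1 ≤ m) {F : Type*} [Field F] [CharZero F]
    (A : Matrix (Fin n) (Fin n) (MvPolynomial (Fin m × Fin m) F))
    (hA : ∀ i j, (A i j).totalDegree ≤ 1)
    (hdet : A.det = Matrix.permanent (Matrix.of fun i j => X (i, j))) :
    lb m ≤ n := by
  obtain ⟨A', hA', hdet'⟩ := Pool.Agent.L5helper57.DC.transfer m n A hA hdet
  exact affine_bound_of hB m n hm A' hA' hdet'

/-- The bound for the padded permanent as a limit of determinants of linear forms. -/
theorem padded_bound_of {lb : ℕ → ℝ} (hB : ∀ m M : ℕ, 1 ≤ m → BorderRep m M → lb m ≤ (M : ℝ) + 1)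
    (m n : ℕ) (hm : 1 ≤ m)
    (A : ℕ → Matrix (Fin n) (Fin n) (MvPolynomial (Option (Fin m × Fin m)) ℂ))
    (hA : ∀ k i j, (A k i j).totalDegree ≤ 1)
    (hlim : ∀ d, Tendsto (fun k => coeff d (A k).det) atTop
      (𝓝 (coeff d (X none ^ (n - m) * Matrix.permanent (Matrix.of fun i j : Fin m =>
        (X (some (i, j)) : MvPolynomial (Option (Fin m × Fin m)) ℂ)))))) :
    lb m ≤ n := by
  classical
  set θ : Option (Fin m × Fin m) → MvPolynomial (Fin m × Fin m) ℂ := fun o =>
    o.elim 1 X with hθ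
  have hθ1 : ∀ v, (θ v).totalDegree ≤ 1 := by
    rintro (_ | v)
    · simp [hθ]
    · simp [hθ]
  refine border_bound_of hB m n hm (fun k => (A k).map (aeval θ)) (fun k i j => ?_) fun d => ?_
  · exact le_trans (L5helper67.DC.totalDegree_aeval_le θ hθ1 _) (hA k i j)
  · have h1 : ∀ k, ((A k).map (aeval θ)).det = aeval θ (A k).det := by
      intro k
      rw [AlgHom.map_det]
      rfl
    have h2 := L5helper67.DC.coeff_tendsto_aeval θ n _ (fun k => (A k).det)
      (fun k => L5helper67.DC.totalDegree_det_le _ (hA k)) hlim d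
    have h3 : aeval θ (X none ^ (n - m) * Matrix.permanent (Matrix.of fun i j : Fin m =>
        (X (some (i, j)) : MvPolynomial (Option (Fin m × Fin m)) ℂ))) =
        Matrix.permanent (Matrix.of fun i j => X (i, j)) := by
      rw [map_mul, map_pow, aeval_X]
      unfold Matrix.permanent
      rw [map_sum]
      simp only [map_prod, Matrix.of_apply, aeval_X]
      simp [hθ]
    rw [h3] at h2
    simp only [h1]
    exact h2

/-- The bound for weakly skew circuits over a field of characteristic zero. -/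
theorem ws_bound_of {lb : ℕ → ℝ} (hB : ∀ m M : ℕ, 1 ≤ m → BorderRep m M → lb m ≤ (M : ℝ) + 1)
    (m s : ℕ) (hm : 1 ≤ m) {F : Type*} [Field F] [CharZero F]
    (l : List (MvPolynomial (Fin m × Fin m) F)) (h : L5helper96.Cub.WS l s)
    (hf : Matrix.permanent (Matrix.of fun i j => X (i, j)) ∈ l ∨
      L5helper96.Cub.Input (Matrix.permanent (Matrix.of fun i j : Fin m =>
        (X (i, j) : MvPolynomial (Fin m × Fin m) F)))) :
    lb m ≤ 2 * (s : ℝ) + 1 := by
  obtain ⟨A, hA, hdet⟩ := h.det_of_avail _ hf (2 * s + 1) (by omega) (by omega)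
  have := field_bound_of hB m (2 * s + 1) hm A hA hdet
  push_cast at this
  exact this

/-- The bound for limits of weakly skew circuits. -/
theorem ws_border_bound_of {lb : ℕ → ℝ}
    (hB : ∀ m M : ℕ, 1 ≤ m → BorderRep m M → lb m ≤ (M : ℝ) + 1) (m s : ℕ) (hm : 1 ≤ m)
    (l : ℕ → List (MvPolynomial (Fin m × Fin m) ℂ)) (sk : ℕ → ℕ) (hs : ∀ k, sk k ≤ s)
    (h : ∀ k, L5helper96.Cub.WS (l k) (sk k)) (f : ℕ → MvPolynomial (Fin m × Fin m) ℂ)
    (hf : ∀ k, f k ∈ l k ∨ L5helper96.Cub.Input (f k))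
    (hlim : ∀ d, Tendsto (fun k => coeff d (f k)) atTop
      (𝓝 (coeff d (Matrix.permanent (Matrix.of fun i j : Fin m =>
        (X (i, j) : MvPolynomial (Fin m × Fin m) ℂ)))))) :
    lb m ≤ 2 * (s : ℝ) + 1 := by
  have h1 : ∀ k, ∃ A : Matrix (Fin (2 * s + 1)) (Fin (2 * s + 1))
      (MvPolynomial (Fin m × Fin m) ℂ), (∀ i j, (A i j).totalDegree ≤ 1) ∧ A.det = f k :=
    fun k => (h k).det_of_avail _ (hf k) (2 * s + 1) (by have := hs k; omega) (by omega)
  choose A hA hdet using h1
  have := border_bound_of hB m (2 * s + 1) hm A hA (by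
    intro d
    simp only [hdet]
    exact hlim d)
  push_cast at this
  exact this

end L5helper59.NC
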