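import Pool.Agent.L5helper59.NC.MainSize
import Pool.Agent.L5helper59.NC.Forms
import Pool.Agent.L5helper79.NC.Lim
import Pool.Agent.L5helper61.NC.Gadget2
import Pool.Agent.L5helper34.NC.Multi

/-!
The nearly cubic lower bound, all parts filled in.
-/

namespace L5helper59.NC

open Finset MvPolynomial L5helper59.DC L5lead.NC L5helper96.NC

theorem perm2 : PermSizeStmt size2 := fun r L m hr t ht hm =>
  L5helper67.NC.F2t_perm_of (L5helper61.NC.gadget2_of L5helper34.NC.gateStmt) r L m hr t ht hm

theorem main2 : MainStmt size2 :=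
  main_size L5helper79.NC.F2t_zero L5helper79.NC.F2t_tendsto L5helper79.NC.F2t_degree perm2

/-- the lower bound `(m / (88 log₂ m)) ^ 3` -/
noncomputable def lb2 (m : ℕ) : ℝ := (m / (88 * Real.logb 2 m)) ^ 3

theorem lb2_eq (m : ℕ) : lb2 m = (Real.log 2 * m / (88 * Real.log m)) ^ 3 := by
  unfold lb2 Real.logb
  congr 1
  have h2 : (0 : ℝ) < Real.log 2 := Real.log_pos (by norm_num)
  by_cases h : Real.log (m : ℝ) = 0
  · rw [h]
    simp
  · field_simp

theorem lb2_small (m : ℕ) (hm : m < 88) : lb2 m ≤ 1 := by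
  unfold lb2
  have hnn : (0 : ℝ) ≤ m / (88 * Real.logb 2 m) := by
    rcases Nat.eq_zero_or_pos m with h | h
    · subst h
      simp
    · have : (0 : ℝ) ≤ Real.logb 2 m := Real.logb_nonneg (by norm_num) (by exact_mod_cast h)
      positivity
  have hle : (m : ℝ) / (88 * Real.logb 2 m) ≤ 1 := by
    rcases Nat.lt_or_ge m 2 with h | h
    · interval_cases m
      · simp
      · simp
    · have h1 : (1 : ℝ) ≤ Real.logb 2 m := by
        rw [Real.le_logb_iff_rpow_le (by norm_num) (by exact_mod_cast (by omega : 0 < m))]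
        rw [Real.rpow_one]
        exact_mod_cast h
      rw [div_le_one (by positivity)]
      have h2 : (m : ℝ) ≤ 88 := by exact_mod_cast hm.le
      nlinarith
  exact pow_le_one₀ hnn hle

theorem border2 (m M : ℕ) (_ : 1 ≤ m) (H : BorderRep m M) : lb2 m ≤ (M : ℝ) + 1 := by
  rcases Nat.lt_or_ge m 22 with h | h
  · have h1 := lb2_small m (by omega)
    have h2 : (0 : ℝ) ≤ M := Nat.cast_nonneg M
    linarith
  · rw [lb2_eq]
    exact final2_of main2 m M h H

end L5helper59.NC
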