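import Pool.Agent.L5helper59.NC.Final2

/-!
# A nearly cubic lower bound for the determinantal complexity of the permanent

If the `m × m` permanent is the determinant of an `n × n` matrix of affine linear forms over a
field of characteristic zero, or over `ℂ` only a limit of such determinants, or if the padded
permanent `x₀ ^ (n - m) perm_m` is a limit of determinants of linear forms over `ℂ`, then
`n ≥ (m / (88 log₂ m)) ^ 3`.

Proof.
1. If `F = det A` with affine forms in `k` variables, `A` of size `n`, then `F = 0` has few points
   at which the gradient is parallel to a given vector and which are nondegenerate. At such a point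
   `A` has corank one, so with kernel and cokernel vectors `v, u` one gets the nondegenerate
   zeros of `A(x) v = 0`, `uᵀ A(x) = 0`, `uᵀ A_w v = 0`, and the weighted Bezout inequality gives
   at most `(1 + ρ) ^ (2n - 1) 2 ^ (k - 1) ρ ^ (- k)` of them, for every `ρ > 0`, roughly
   `(4 e n / k) ^ k`.
2. The polynomial `x₀ + ∑ z < N, e_{q+1}(x_{z,1}, …, x_{z,N})`, `N = 2 q`, in `N ^ 2 + 1` variables
   has `(q!) ^ (2 N)` such points: the two halves of each group are orderings of the `q`-th roots of
   unity.
3. Put `x_{z,i}` into the cell `(i, i + z)` of a matrix with `N` rows and `2 N` columns. The sum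
   over `z < N` of the sums of all `(q+1) × (q+1)` subpermanents of the matrices
   `t ^ ((j - i - z) ^ 2) y_{ij}` tends to the polynomial of 2 (without `x₀`) as `t → 0`. As
   `t ^ ((j - i - z) ^ 2)` is `t ^ ((j - i) ^ 2)` times `t ^ (z ^ 2)`, a row factor to the power `z`
   and a column factor to the power `z`, this sum over `z` is, up to constants, a projection of a
   permanent of size `3 N + q + 1 + O(N log N)`: the binary digits of `z` are `log₂ N` hidden pairs
   of a row and a column, each joined to all rows and columns by gates with two more rows and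
   columns.
4. Nondegenerate points persist in limits.
-/

open Filter Topology

namespace L5helper59.NC.NearlyCubicBound

theorem nearly_cubic_bound.{u} (m : ℕ) (hm : 1 ≤ m) (n : ℕ) :
    (∀ (F : Type u) [Field F] [CharZero F]
      (A : Matrix (Fin n) (Fin n) (MvPolynomial (Fin m × Fin m) F)),
      (∀ i j, (A i j).totalDegree ≤ 1) →
      A.det = Matrix.permanent (Matrix.of fun i j => MvPolynomial.X (i, j)) →
      ((m : ℝ) / (88 * Real.logb 2 m)) ^ 3 ≤ n) ∧
    (∀ A : ℕ → Matrix (Fin n) (Fin n) (MvPolynomial (Fin m × Fin m) ℂ),
      (∀ k i j, (A k i j).totalDegree ≤ 1) →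
      (∀ d, Tendsto (fun k => MvPolynomial.coeff d (A k).det) atTop
        (𝓝 (MvPolynomial.coeff d (Matrix.permanent (Matrix.of fun i j : Fin m =>
          (MvPolynomial.X (i, j) : MvPolynomial (Fin m × Fin m) ℂ)))))) →
      ((m : ℝ) / (88 * Real.logb 2 m)) ^ 3 ≤ n) ∧
    (∀ A : ℕ → Matrix (Fin n) (Fin n) (MvPolynomial (Option (Fin m × Fin m)) ℂ),
      (∀ k i j, (A k i j).IsHomogeneous 1) →
      (∀ d, Tendsto (fun k => MvPolynomial.coeff d (A k).det) atTop
        (𝓝 (MvPolynomial.coeff d (MvPolynomial.X none ^ (n - m) *
          Matrix.permanent (Matrix.of fun i j : Fin m =>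
            (MvPolynomial.X (some (i, j)) : MvPolynomial (Option (Fin m × Fin m)) ℂ)))))) →
      ((m : ℝ) / (88 * Real.logb 2 m)) ^ 3 ≤ n) :=
  ⟨fun _ _ _ A hA hdet => L5helper59.NC.field_bound_of L5helper59.NC.border2 m n hm A hA hdet,
    fun A hA hlim => L5helper59.NC.border_bound_of L5helper59.NC.border2 m n hm A hA hlim,
    fun A hA hlim => L5helper59.NC.padded_bound_of L5helper59.NC.border2 m n hm A
      (fun k i j => (hA k i j).totalDegree_le) hlim⟩

end L5helper59.NC.NearlyCubicBound
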