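import Pool.Agent.L5helper67.DC.Assembled
import Pool.Agent.L5helper18.DC.Persist

/-!
Nondegenerate critical points survive two limits: from `F` to polynomials `F_k` which are
permanents up to constants, and from `F_k` to determinants.
-/

namespace L5helper59.NC

open Finset MvPolynomial Filter Topology L5helper59.DC

theorem aeval_permPoly {ι : Type} {m : ℕ} (N : Matrix (Fin m) (Fin m) (MvPolynomial ι ℂ)) :
    aeval (fun v : Fin m × Fin m => N v.1 v.2) (permPoly m) = N.permanent := by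
  unfold permPoly Matrix.permanent
  rw [map_sum]
  refine Finset.sum_congr rfl fun s _ => ?_
  rw [map_prod]
  refine Finset.prod_congr rfl fun i _ => ?_
  simp

/-- nondegenerate zeros and critical points of `F` with respect to the directions `w` -/
def Pts {ι κ : Type} [Fintype ι] (F : MvPolynomial ι ℂ) (w : κ → ι → ℂ)
    (S : Finset (ι → ℂ)) : Prop :=
  (∀ p ∈ S, eval p F = 0) ∧ (∀ p ∈ S, ∀ e, ∑ i, w e i * eval p (pderiv i F) = 0) ∧
    (∀ p ∈ S, ∀ z : ι → ℂ, ∑ i, z i * eval p (pderiv i F) = 0 →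
      (∀ e, ∑ i, ∑ j, z j * w e i * eval p (pderiv j (pderiv i F)) = 0) → z = 0)

theorem Pts.scale {ι κ : Type} [Fintype ι] {F : MvPolynomial ι ℂ} {w : κ → ι → ℂ}
    {S : Finset (ι → ℂ)} (h : Pts F w S) (K : ℂ) (hK : K ≠ 0) : Pts (C K * F) w S := by
  obtain ⟨h0, h1, h2⟩ := h
  have e1 : ∀ p : ι → ℂ, ∀ i, eval p (pderiv i (C K * F)) = K * eval p (pderiv i F) := by
    intro p i
    rw [pderiv_C_mul, map_mul, eval_C]
  have e2 : ∀ p : ι → ℂ, ∀ i j, eval p (pderiv j (pderiv i (C K * F))) =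
      K * eval p (pderiv j (pderiv i F)) := by
    intro p i j
    rw [pderiv_C_mul, pderiv_C_mul, map_mul, eval_C]
  have e3 : ∀ p : ι → ℂ, ∀ z : ι → ℂ, ∑ i, z i * eval p (pderiv i (C K * F)) =
      K * ∑ i, z i * eval p (pderiv i F) := by
    intro p z
    rw [mul_sum]
    refine sum_congr rfl fun i _ => ?_
    rw [e1]
    ring
  refine ⟨fun p hp => ?_, fun p hp e => ?_, fun p hp z hz1 hz2 => ?_⟩
  · rw [map_mul, h0 p hp, mul_zero]
  · rw [e3, h1 p hp e, mul_zero]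
  · refine h2 p hp z ?_ fun e => ?_
    · rw [e3] at hz1
      exact (mul_eq_zero.1 hz1).resolve_left hK
    · have h3 := hz2 e
      have h4 : ∑ i, ∑ j, z j * w e i * eval p (pderiv j (pderiv i (C K * F))) =
          K * ∑ i, ∑ j, z j * w e i * eval p (pderiv j (pderiv i F)) := by
        rw [mul_sum]
        refine sum_congr rfl fun i _ => ?_
        rw [mul_sum]
        refine sum_congr rfl fun j _ => ?_
        rw [e2]
        ring
      rw [h4] at h3
      exact (mul_eq_zero.1 h3).resolve_left hK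

theorem two_step {ι κ : Type} [Fintype ι] [Fintype κ] [DecidableEq ι] [DecidableEq κ]
    (hcard : Fintype.card ι = Fintype.card κ + 1) (m M : ℕ) (H : BorderRep m M)
    (F : MvPolynomial ι ℂ) (Fk : ℕ → MvPolynomial ι ℂ) (D : ℕ)
    (hdeg : ∀ k, (Fk k).totalDegree ≤ D)
    (hlim : ∀ d, Tendsto (fun k => coeff d (Fk k)) atTop (𝓝 (coeff d F)))
    (hperm : ∀ k, ∃ (N : Matrix (Fin m) (Fin m) (MvPolynomial ι ℂ)) (K : ℂ), K ≠ 0 ∧
      (∀ x y, (N x y).totalDegree ≤ 1) ∧ N.permanent = C K * Fk k)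
    (w : κ → ι → ℂ) (S : Finset (ι → ℂ)) (hS : Pts F w S) (a b : ℕ) (ha : 1 ≤ a) (hb : 1 ≤ b) :
    S.card * (a ^ Fintype.card ι * b ^ (2 * M)) ≤
      (a + b) ^ (2 * M + 1) * (2 * b) ^ Fintype.card κ := by
  obtain ⟨k, S', hS'c, hS'0, hS'1, hS'2⟩ := Pool.Agent.L5helper18.DC.persist hcard F Fk D hdeg
    hlim w S hS.1 hS.2.1 hS.2.2
  obtain ⟨N, K, hK, hN, hNp⟩ := hperm k
  have hP : Pts (C K * Fk k) w S' := Pts.scale ⟨hS'0, hS'1, hS'2⟩ K hK
  obtain ⟨A, hA, hAlim⟩ := L5helper67.DC.border_subst H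
    (fun v : Fin m × Fin m => N v.1 v.2) (fun v => hN v.1 v.2)
  rw [aeval_permPoly, hNp] at hAlim
  obtain ⟨j, S'', hS''c, hS''0, hS''1, hS''2⟩ := Pool.Agent.L5helper18.DC.persist hcard
    (C K * Fk k) (fun j => (A j).det) (M + 1)
    (fun j => L5helper67.DC.totalDegree_det_le _ (hA j)) hAlim w S' hP.1 hP.2.1 hP.2.2
  have hfin := card_nondeg_le hcard M _ (A j) (hA j) rfl w S'' hS''0 hS''1 hS''2 a b ha hb
  rw [hS''c, hS'c] at hfin
  exact hfin

end L5helper59.NC
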